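import Pool.Agent.MWLQ.StmtsB

/-! Row ITD of squad MWLQ (MP_23468a_al): from the exact period `d` to `n`. -/

set_option autoImplicit false

namespace Pool.Agent.MWLQ.H75

open Pool.Agent.Helper14_MV
open Pool.Agent.Helper2_MV (RR)
open Pool.Agent.MWGQ (pw Z Gn E0 A0 P0)

theorem pw_one (k d : ℕ) : pw k [d] = List.replicate k d := by
  unfold pw
  induction k with
  | zero => rfl
  | succ k ih =>
    rw [List.replicate_succ, List.flatten_cons, ih, List.replicate_succ]
    rfl

/-- `x^d` is inserted `j` times -/
theorem itj {d : ℕ} {β : FIC} (hI : MWGQ.It d (RR β)) (p w w' q : List ℕ) (x : ℕ)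
    (hM : MVO.Sys.Mul (w ++ w') (p ++ x :: (w ++ (w' ++ x :: q)))) : ∀ j : ℕ,
      RR β (p ++ x :: (w ++ (w' ++ x :: q)))
        (p ++ x :: (w ++ (List.replicate (j * d) x ++ (w' ++ x :: q))))
  | 0 => by
    rw [Nat.zero_mul]
    exact Pool.Agent.Helper2_MV.RR.refl _
  | j + 1 => by
    have h1 := itj hI p w w' q x hM j
    have hle : ∀ a, (p ++ x :: (w ++ (w' ++ x :: q))).count a ≤
        (p ++ x :: (w ++ ((List.replicate (j * d) x ++ w') ++ x :: q))).count a := by
      intro a
      simp only [List.count_append, List.count_cons]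
      omega
    have h2 := hI p w (List.replicate (j * d) x ++ w') q x (by
      intro a ha
      rw [List.mem_append, List.mem_append] at ha
      rcases ha with ha | ha | ha
      · exact le_trans (hM a (List.mem_append_left _ ha)) (hle a)
      · have hax : a = x := List.eq_of_mem_replicate ha
        subst hax
        simp only [List.count_append, List.count_cons, beq_self_eq_true, if_true]
        omega
      · exact le_trans (hM a (List.mem_append_right _ ha)) (hle a))
    have e1 : p ++ x :: (w ++ ((List.replicate (j * d) x ++ w') ++ x :: q)) =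
        p ++ x :: (w ++ (List.replicate (j * d) x ++ (w' ++ x :: q))) := by
      rw [List.append_assoc]
    have e2 : p ++ x :: (w ++ (List.replicate d x ++ ((List.replicate (j * d) x ++ w') ++ x :: q))) =
        p ++ x :: (w ++ (List.replicate ((j + 1) * d) x ++ (w' ++ x :: q))) := by
      rw [show (j + 1) * d = d + j * d by rw [Nat.succ_mul, Nat.add_comm], List.replicate_add]
      simp only [List.append_assoc]
    rw [e1, e2] at h2
    exact β.trans h1 h2

/-- ROW ITD -/
theorem itd (hpwx : MWGQ.PwxStmt) : ItdStmt := by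
  intro n d β hn hd hdn hG
  have hmod : d ≡ n [MOD d] := by
    obtain ⟨m, rfl⟩ := hdn
    unfold Nat.ModEq
    rw [Nat.mod_self, Nat.mul_mod_right]
  refine ⟨?_, ?_, ?_⟩
  · intro hI p c q x hM
    have h1 := (hpwx d β hG).1 [x] (d + 1) (n + 1) (by omega) (by omega) (hmod.add_right 1)
    rw [pw_one, pw_one] at h1
    have h2 := (Pool.Agent.Helper2_MV.RR.refl (β := β) p).append
      (h1.append (Pool.Agent.Helper2_MV.RR.refl (β := β) (c ++ x :: q)))
    exact β.trans (hI p c q x hM) h2
  · intro hI p w w' q x hM
    obtain ⟨m, rfl⟩ := hdn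
    have h := itj hI p w w' q x hM m
    rw [Nat.mul_comm m d] at h
    exact h
  · intro hE
    have h1 := (hpwx d β hG).2.1 [0] [0, 1] d n hd hn hmod
    rw [pw_one, pw_one] at h1
    exact β.trans hE h1

end Pool.Agent.MWLQ.H75
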